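import Pool.Agent.Helper1.ZN.Defs

/-!
ZN-T2: second differences of a function satisfying the exchange relation.
-/

open Finset

namespace Pool.Agent.Helper1.ZN

/-- the statement of `hyers` -/
def T2_Hyers : Prop := ∀ (V W ε : ℝ) (F : ℝ → ℝ), 0 < V → (∀ v, 0 < v → v ≤ V → |F v| ≤ W) →
    (∀ u v, 0 < u → 0 < v → u + v ≤ V → u ≤ 3 * v → v ≤ 3 * u →
      |F (u + v) - F u - F v| ≤ ε) →
    ∀ v, 0 < v → v ≤ V → |F v - v / V * F V| ≤ 5 * ε

/-- second difference -/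
def T2_D (f : ℝ → ℝ) (x g h : ℝ) : ℝ := f (x + g + h) - f (x + g) - f (x + h) + f x

theorem T2_star {h0 ρ : ℝ} (hh0' : h0 ≤ 1 / 200) {f : ℝ → ℝ} (hE : ExRel h0 ρ f)
    (x g h k : ℝ) (hx : 1 / 4 ≤ x) (hg : 1 / 20 ≤ g) (hh : 0 < h) (hh2 : h ≤ h0 / 2) (hk : 0 < k)
    (hk2 : k ≤ h0 / 2) (hb : 3 / 5 ≤ x + g + h) (hb2 : x + g + h ≤ 23 / 20)
    (hrel : 2 * k ^ 2 * (x + g + h + k) = g * h * (2 * x + g + h)) :
    |T2_D f x g h - (f (x + g + h) - 2 * f (x + g + h + k) + f (x + g + h + 2 * k))| ≤ ρ := by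
  have h1 : 0 < x := by linarith
  have habs : |x| = x := abs_of_pos h1
  have habs2 : |x + h| = x + h := abs_of_pos (by linarith)
  have habs3 : |h| = h := abs_of_pos hh
  have habs4 : |k| = k := abs_of_pos hk
  have habs5 : |k + h| = k + h := abs_of_pos (by linarith)
  have key := hE x h (x + g + h + k) k (by rw [habs]; linarith) (by rw [habs]; linarith)
    (by rw [habs2]; linarith) (by rw [habs2]; linarith) (by rw [habs3]; linarith)
    (by rw [habs4]; linarith) (by rw [habs5]; linarith) (by linarith) (by linarith) (by linarith)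
    (by linarith) (by linarith) (by linarith)
    (by rw [habs, abs_sub_comm, abs_of_pos (by linarith)]; linarith)
    (by linear_combination hrel)
  have e1 : x + g + h + k + k = x + g + h + 2 * k := by ring
  have e2 : x + g + h + k - k - h = x + g := by ring
  rw [e1, e2] at key
  rw [T2_D, abs_sub_comm]
  convert key using 2
  ring

/-! ### The root `k` -/

theorem T2_kex (b v : ℝ) (hb : 3 / 5 ≤ b) (hv : 0 < v) : ∃ k, 0 < k ∧ k ^ 2 * (b + k) = v := by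
  have hcont : ContinuousOn (fun k : ℝ => k ^ 2 * (b + k)) (Set.Icc 0 (1 + v)) := by fun_prop
  have h := intermediate_value_Icc (by linarith : (0 : ℝ) ≤ 1 + v) hcont
  have hmem : v ∈ Set.Icc ((fun k : ℝ => k ^ 2 * (b + k)) 0) ((fun k : ℝ => k ^ 2 * (b + k)) (1 + v)) := by
    constructor
    · simp only; norm_num; exact hv.le
    · simp only; nlinarith [sq_nonneg v, mul_pos hv hv, mul_pos (mul_pos hv hv) hv]
  obtain ⟨k, hk, hkv⟩ := h hmem
  simp only at hkv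
  refine ⟨k, lt_of_le_of_ne hk.1 ?_, hkv⟩
  rintro rfl
  norm_num at hkv
  linarith

open Classical in
/-- the positive root of `k ^ 2 (b + k) = v` -/
noncomputable def T2_k (b v : ℝ) : ℝ :=
  if h : ∃ k, 0 < k ∧ k ^ 2 * (b + k) = v then Classical.choose h else 0

theorem T2_k_spec (b v : ℝ) (hb : 3 / 5 ≤ b) (hv : 0 < v) :
    0 < T2_k b v ∧ T2_k b v ^ 2 * (b + T2_k b v) = v := by
  have h := T2_kex b v hb hv
  rw [T2_k, dif_pos h]
  exact Classical.choose_spec h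

theorem T2_k_small (h0 b v : ℝ) (hh0 : 0 < h0) (hb : 3 / 5 ≤ b) (hv : 0 < v)
    (hv2 : v ≤ h0 ^ 2 / 10) : T2_k b v ≤ h0 / 2 := by
  obtain ⟨h1, h2⟩ := T2_k_spec b v hb hv
  by_contra hcon
  push Not at hcon
  have h3 : (h0 / 2) ^ 2 < T2_k b v ^ 2 := by
    apply pow_lt_pow_left₀ hcon (by linarith) (by norm_num)
  nlinarith [mul_pos h1 h1]

/-- the function `F (b; v)` -/
noncomputable def T2_F (f : ℝ → ℝ) (b v : ℝ) : ℝ :=
  f b - 2 * f (b + T2_k b v) + f (b + 2 * T2_k b v)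

theorem T2_star' {h0 ρ : ℝ} (hh0 : 0 < h0) (hh0' : h0 ≤ 1 / 200) {f : ℝ → ℝ} (hE : ExRel h0 ρ f)
    (x g h v : ℝ) (hx : 1 / 4 ≤ x) (hg : 1 / 20 ≤ g) (hh : 0 < h) (hh2 : h ≤ h0 / 2)
    (hb : 3 / 5 ≤ x + g + h) (hb2 : x + g + h ≤ 23 / 20)
    (hv : 2 * v = g * h * (2 * x + g + h)) (hv2 : v ≤ h0 ^ 2 / 10) :
    |T2_D f x g h - T2_F f (x + g + h) v| ≤ ρ := by
  have hvpos : 0 < v := by
    have : 0 < g * h * (2 * x + g + h) := by positivity
    linarith
  obtain ⟨h1, h2⟩ := T2_k_spec (x + g + h) v hb hvpos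
  have h3 := T2_k_small h0 (x + g + h) v hh0 hb hvpos hv2
  exact T2_star hh0' hE x g h _ hx hg hh hh2 h1 h3 hb hb2 (by linear_combination 2 * h2 + hv)

theorem T2_A {h0 ρ : ℝ} (hh0 : 0 < h0) (hh0' : h0 ≤ 1 / 200) {f : ℝ → ℝ} (hE : ExRel h0 ρ f)
    (B g g1 h v1 v2 : ℝ) (hx : 1 / 4 ≤ B - g1 - h) (hg : 1 / 20 ≤ g) (hg1 : 1 / 20 ≤ g1)
    (hh : 0 < h) (hh2 : h ≤ h0 / 2) (hB : 3 / 5 ≤ B) (hB2 : B + g ≤ 23 / 20)
    (hv1 : 2 * v1 = g * h * (2 * B + g - h)) (hv2 : 2 * v2 = g1 * h * (2 * B - g1 - h))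
    (hv12 : v1 + v2 ≤ h0 ^ 2 / 10) :
    |T2_F f (B + g) v1 + T2_F f B v2 - T2_F f (B + g) (v1 + v2)| ≤ 3 * ρ := by
  have p1 : 0 < v1 := by
    have : 0 < g * h * (2 * B + g - h) := by
      apply mul_pos (mul_pos (by linarith) hh); linarith
    linarith
  have p2 : 0 < v2 := by
    have : 0 < g1 * h * (2 * B - g1 - h) := by
      apply mul_pos (mul_pos (by linarith) hh); linarith
    linarith
  have s1 := T2_star' hh0 hh0' hE (B - h) g h v1 (by linarith) hg hh hh2 (by linarith)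
    (by linarith) (by rw [hv1]; ring) (by linarith)
  have s2 := T2_star' hh0 hh0' hE (B - g1 - h) g1 h v2 hx hg1 hh hh2 (by linarith)
    (by linarith) (by rw [hv2]; ring) (by linarith)
  have s3 := T2_star' hh0 hh0' hE (B - g1 - h) (g + g1) h (v1 + v2) hx (by linarith) hh hh2
    (by linarith) (by linarith) (by linear_combination hv1 + hv2) hv12
  rw [show B - h + g + h = B + g by ring] at s1
  rw [show B - g1 - h + g1 + h = B by ring] at s2
  rw [show B - g1 - h + (g + g1) + h = B + g by ring] at s3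
  have e : T2_D f (B - h) g h + T2_D f (B - g1 - h) g1 h = T2_D f (B - g1 - h) (g + g1) h := by
    simp only [T2_D]
    rw [show B - h + g + h = B + g by ring, show B - h + h = B by ring,
      show B - g1 - h + g1 + h = B by ring, show B - g1 - h + g1 = B - h by ring,
      show B - g1 - h + (g + g1) + h = B + g by ring,
      show B - g1 - h + (g + g1) = B - h + g by ring]
    ring
  have a1 := abs_le.1 s1
  have a2 := abs_le.1 s2
  have a3 := abs_le.1 s3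
  rw [abs_le]
  constructor <;> linarith [a1.1, a1.2, a2.1, a2.2, a3.1, a3.2]

/-- existence of `h` with `g h (c - h) = 2 v` -/
theorem T2_hex (H g c v : ℝ) (hH : 0 < H) (hv : 0 < v) (_hg : 0 < g)
    (hbig : 2 * v ≤ g * H * (c - H)) : ∃ h, 0 < h ∧ h ≤ H ∧ g * h * (c - h) = 2 * v := by
  have hcont : ContinuousOn (fun h : ℝ => g * h * (c - h)) (Set.Icc 0 H) := by fun_prop
  obtain ⟨h, hh, hhv⟩ := intermediate_value_Icc hH.le hcont (show 2 * v ∈ Set.Icc
    ((fun h : ℝ => g * h * (c - h)) 0) ((fun h : ℝ => g * h * (c - h)) H) from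
      ⟨by simp; exact hv.le, hbig⟩)
  simp only at hhv
  refine ⟨h, lt_of_le_of_ne hh.1 ?_, hh.2, hhv⟩
  rintro rfl
  norm_num at hhv
  linarith

theorem T2_B {h0 ρ : ℝ} (hh0 : 0 < h0) (hh0' : h0 ≤ 1 / 200) {f : ℝ → ℝ} (hE : ExRel h0 ρ f)
    (B g v : ℝ) (hg : 1 / 20 ≤ g) (hg2 : g ≤ 1 / 10) (hB : 3 / 5 ≤ B) (hB2 : B + g ≤ 23 / 20)
    (hv : 0 < v) (hv2 : v ≤ h0 ^ 2 / 20) :
    |T2_F f (B + g) v + T2_F f B v - T2_F f (B + g) (2 * v)| ≤ 3 * ρ := by
  have hsq : h0 ^ 2 ≤ h0 / 200 := by nlinarith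
  obtain ⟨h, hh, hh2, hhv⟩ := T2_hex (h0 / 2) g (2 * B + g) v (by linarith) hv (by linarith) (by
    have : (1 / 20) * (h0 / 2) * 1 ≤ g * (h0 / 2) * (2 * B + g - h0 / 2) := by
      apply mul_le_mul _ (by linarith) (by norm_num) (by positivity)
      exact mul_le_mul_of_nonneg_right hg (by linarith)
    linarith)
  -- g1
  have hcont : ContinuousOn (fun g1 : ℝ => g1 * (2 * B - g1 - h)) (Set.Icc g (1 / 5)) := by fun_prop
  obtain ⟨g1, hg1, hg1v⟩ := intermediate_value_Icc (by linarith : g ≤ 1 / 5) hcont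
    (show g * (2 * B + g - h) ∈ Set.Icc ((fun g1 : ℝ => g1 * (2 * B - g1 - h)) g)
      ((fun g1 : ℝ => g1 * (2 * B - g1 - h)) (1 / 5)) from
      ⟨by simp only; nlinarith, by simp only; nlinarith⟩)
  simp only at hg1v
  have := T2_A hh0 hh0' hE B g g1 h v v (by linarith [hg1.2]) hg (by linarith [hg1.1]) hh hh2 hB hB2
    (by rw [← hhv]) (by rw [← hhv]; linear_combination -h * hg1v) (by linarith)
  rwa [show v + v = 2 * v by ring] at this

theorem T2_C {h0 ρ : ℝ} (hh0 : 0 < h0) (hh0' : h0 ≤ 1 / 200) {f : ℝ → ℝ} (hE : ExRel h0 ρ f)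
    (b1 b2 v : ℝ) (h1 : 3 / 5 ≤ b1) (h12 : b1 ≤ b2) (h2 : b2 ≤ 11 / 10) (hd : b2 ≤ b1 + 1 / 20)
    (hv : 0 < v) (hv2 : v ≤ h0 ^ 2 / 20) :
    |T2_F f b1 v - T2_F f b2 v| ≤ 6 * ρ := by
  have s1 := T2_B hh0 hh0' hE b1 (b2 + 1 / 20 - b1) v (by linarith) (by linarith) h1 (by linarith)
    hv hv2
  have s2 := T2_B hh0 hh0' hE b2 (1 / 20) v (by linarith) (by linarith) (by linarith) (by linarith)
    hv hv2
  rw [show b1 + (b2 + 1 / 20 - b1) = b2 + 1 / 20 by ring] at s1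
  have a1 := abs_le.1 s1
  have a2 := abs_le.1 s2
  rw [abs_le]
  constructor <;> linarith [a1.1, a1.2, a2.1, a2.2]

theorem T2_chain {h0 ρ : ℝ} (hh0 : 0 < h0) (hh0' : h0 ≤ 1 / 200) {f : ℝ → ℝ}
    (hE : ExRel h0 ρ f) (v : ℝ) (hv : 0 < v) (hv2 : v ≤ h0 ^ 2 / 20) (hρ : 0 ≤ ρ) (n : ℕ) :
    ∀ b1 b2 : ℝ, 3 / 5 ≤ b1 → b1 ≤ b2 → b2 ≤ 11 / 10 → b2 ≤ b1 + n * (1 / 20) →
      |T2_F f b1 v - T2_F f b2 v| ≤ n * (6 * ρ) := by
  induction n with
  | zero =>
    intro b1 b2 _ h12 _ hd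
    have : b1 = b2 := by
      norm_num at hd; linarith
    rw [this]; simp
  | succ n ih =>
    intro b1 b2 h1 h12 h2 hd
    push_cast at hd ⊢
    rcases le_total b2 (b1 + 1 / 20) with h | h
    · have := T2_C hh0 hh0' hE b1 b2 v h1 h12 h2 h hv hv2
      have : 0 ≤ (n : ℝ) * (6 * ρ) := by positivity
      linarith
    · have s1 := T2_C hh0 hh0' hE b1 (b1 + 1 / 20) v h1 (by linarith) (by linarith) le_rfl hv hv2
      have s2 := ih (b1 + 1 / 20) b2 (by linarith) h h2 (by linarith)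
      have a1 := abs_le.1 s1
      have a2 := abs_le.1 s2
      rw [abs_le]
      constructor <;> linarith [a1.1, a1.2, a2.1, a2.2]

theorem T2_indep {h0 ρ : ℝ} (hh0 : 0 < h0) (hh0' : h0 ≤ 1 / 200) {f : ℝ → ℝ}
    (hE : ExRel h0 ρ f) (v : ℝ) (hv : 0 < v) (hv2 : v ≤ h0 ^ 2 / 20) (hρ : 0 ≤ ρ)
    (b1 b2 : ℝ) (h1 : 3 / 5 ≤ b1) (h1' : b1 ≤ 11 / 10) (h2 : 3 / 5 ≤ b2) (h2' : b2 ≤ 11 / 10) :
    |T2_F f b1 v - T2_F f b2 v| ≤ 60 * ρ := by
  rcases le_total b1 b2 with h | h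
  · have := T2_chain hh0 hh0' hE v hv hv2 hρ 10 b1 b2 h1 h h2' (by norm_num; linarith)
    norm_num at this; linarith
  · have := T2_chain hh0 hh0' hE v hv hv2 hρ 10 b2 b1 h2 h h1' (by norm_num; linarith)
    rw [abs_sub_comm]
    norm_num at this; linarith

theorem T2_add {h0 ρ : ℝ} (hh0 : 0 < h0) (hh0' : h0 ≤ 1 / 200) {f : ℝ → ℝ} (hE : ExRel h0 ρ f)
    (v1 v2 : ℝ) (hv1 : 0 < v1) (hv2 : 0 < v2) (h12 : v2 ≤ v1) (h21 : v1 ≤ 3 * v2)
    (hV : v1 + v2 ≤ h0 ^ 2 / 20) :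
    |T2_F f (9 / 10) v1 + T2_F f (7 / 10) v2 - T2_F f (9 / 10) (v1 + v2)| ≤ 3 * ρ := by
  have hsq : h0 ^ 2 ≤ h0 / 200 := by nlinarith
  obtain ⟨h, hh, hh2, hhv⟩ := T2_hex (h0 / 2) (1 / 5) (8 / 5) v1 (by linarith) hv1 (by norm_num) (by
    nlinarith)
  -- g1 with g1 h (7/5 - g1 - h) = 2 v2
  have hcont : ContinuousOn (fun g1 : ℝ => g1 * h * (7 / 5 - g1 - h)) (Set.Icc (1 / 20) (2 / 5)) := by
    fun_prop
  obtain ⟨g1, hg1, hg1v⟩ := intermediate_value_Icc (by norm_num : (1 / 20 : ℝ) ≤ 2 / 5) hcont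
    (show 2 * v2 ∈ Set.Icc ((fun g1 : ℝ => g1 * h * (7 / 5 - g1 - h)) (1 / 20))
      ((fun g1 : ℝ => g1 * h * (7 / 5 - g1 - h)) (2 / 5)) from
      ⟨by simp only; nlinarith, by simp only; nlinarith⟩)
  simp only at hg1v
  have := T2_A hh0 hh0' hE (7 / 10) (1 / 5) g1 h v1 v2 (by linarith [hg1.2]) (by norm_num) hg1.1 hh hh2
    (by norm_num) (by norm_num) (by rw [← hhv]; ring) (by rw [← hg1v]; ring) (by nlinarith)
  rwa [show (7 / 10 + 1 / 5 : ℝ) = 9 / 10 by norm_num] at this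

theorem T2_F_bound {h0 : ℝ} (hh0 : 0 < h0) (hh0' : h0 ≤ 1 / 200) {f : ℝ → ℝ}
    (hf : ∀ t, 1 / 5 ≤ |t| → |t| ≤ 13 / 8 → |f t| ≤ 1) (b v : ℝ) (hb : 3 / 5 ≤ b)
    (hb2 : b ≤ 23 / 20) (hv : 0 < v) (hv2 : v ≤ h0 ^ 2 / 10) : |T2_F f b v| ≤ 4 := by
  obtain ⟨h1, _⟩ := T2_k_spec b v hb hv
  have h3 := T2_k_small h0 b v hh0 hb hv hv2
  have q : ∀ t, 3 / 5 ≤ t → t ≤ 13 / 10 → |f t| ≤ 1 := fun t ht ht' =>
    hf t (by rw [abs_of_pos (by linarith)]; linarith) (by rw [abs_of_pos (by linarith)]; linarith)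
  have a1 := abs_le.1 (q b hb (by linarith))
  have a2 := abs_le.1 (q (b + T2_k b v) (by linarith) (by linarith))
  have a3 := abs_le.1 (q (b + 2 * T2_k b v) (by linarith) (by linarith))
  rw [T2_F, abs_le]
  constructor <;> linarith [a1.1, a1.2, a2.1, a2.2, a3.1, a3.2]

theorem exrel_second_of (hy : T2_Hyers) (h0 : ℝ) (hh0 : 0 < h0) (hh0' : h0 ≤ 1 / 200) :
    ∃ C > 0, ∃ h1 > 0, ∀ (f : ℝ → ℝ) (ρ : ℝ), 0 ≤ ρ →
      (∀ t, 1 / 5 ≤ |t| → |t| ≤ 13 / 8 → |f t| ≤ 1) → ExRel h0 ρ f →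
      ∃ γ : ℝ, |γ| ≤ C ∧ ∀ x g h, 1 / 4 ≤ x → 1 / 20 ≤ g → 0 < h → h ≤ h1 →
        3 / 5 ≤ x + g + h → x + g + h ≤ 21 / 20 →
        |f (x + g + h) - f (x + g) - f (x + h) + f x - 3 * γ * g * h * (2 * x + g + h)|
          ≤ C * ρ := by
  set V : ℝ := h0 ^ 2 / 20 with hV
  have hVpos : 0 < V := by positivity
  have hsq : h0 ^ 2 ≤ h0 / 200 := by nlinarith
  refine ⟨676 + 4 / (6 * V), by positivity, V / 2, by positivity, ?_⟩
  intro f ρ hρ hf hE
  set Φ : ℝ → ℝ := T2_F f (7 / 10) with hΦ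
  have hhy := hy V 4 (123 * ρ) Φ hVpos
    (fun v hv hv2 => T2_F_bound hh0 hh0' hf (7 / 10) v (by norm_num) (by norm_num) hv (by
      rw [hV] at hv2; nlinarith [sq_nonneg h0]))
    (by
      intro u v hu hv huv h1 h2
      rcases le_total v u with h | h
      · have s := T2_add hh0 hh0' hE u v hu hv h h1 huv
        have i1 := T2_indep hh0 hh0' hE u hu (by linarith) hρ (9 / 10) (7 / 10) (by norm_num)
          (by norm_num) (by norm_num) (by norm_num)
        have i2 := T2_indep hh0 hh0' hE (u + v) (by linarith) huv hρ (9 / 10) (7 / 10)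
          (by norm_num) (by norm_num) (by norm_num) (by norm_num)
        have a := abs_le.1 s
        have a1 := abs_le.1 i1
        have a2 := abs_le.1 i2
        rw [hΦ, abs_le]
        constructor <;> linarith [a.1, a.2, a1.1, a1.2, a2.1, a2.2]
      · have s := T2_add hh0 hh0' hE v u hv hu h h2 (by linarith)
        have i1 := T2_indep hh0 hh0' hE v hv (by linarith) hρ (9 / 10) (7 / 10) (by norm_num)
          (by norm_num) (by norm_num) (by norm_num)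
        have i2 := T2_indep hh0 hh0' hE (u + v) (by linarith) huv hρ (9 / 10) (7 / 10)
          (by norm_num) (by norm_num) (by norm_num) (by norm_num)
        rw [add_comm v u] at s
        have a := abs_le.1 s
        have a1 := abs_le.1 i1
        have a2 := abs_le.1 i2
        rw [hΦ, abs_le]
        constructor <;> linarith [a.1, a.2, a1.1, a1.2, a2.1, a2.2])
  refine ⟨Φ V / (6 * V), ?_, ?_⟩
  · have hb := T2_F_bound hh0 hh0' hf (7 / 10) V (by norm_num) (by norm_num) hVpos (by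
      rw [hV]; nlinarith [sq_nonneg h0])
    rw [abs_div, abs_of_pos (by positivity : (0:ℝ) < 6 * V)]
    have : |Φ V| / (6 * V) ≤ 4 / (6 * V) := div_le_div_of_nonneg_right hb (by positivity)
    linarith
  · intro x g h hx hg hh hh1 hb hb2
    have hvv : 0 < g * h * (2 * x + g + h) / 2 := by
      have : 0 < g := by linarith
      have : 0 < x := by linarith
      positivity
    have hsmall : g * h * (2 * x + g + h) / 2 ≤ V := by
      have hx0 : 0 < x := by linarith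
      have hg0 : 0 < g := by linarith
      have e1 : g ≤ 1 := by linarith
      have e2 : 2 * x + g + h ≤ 21 / 10 := by linarith
      have e3 : g * h ≤ V / 2 := by nlinarith
      have e4 : 0 < g * h := by positivity
      nlinarith
    have hVh0 : V ≤ h0 / 2 := by rw [hV]; nlinarith
    have s := T2_star' hh0 hh0' hE x g h (g * h * (2 * x + g + h) / 2) hx hg hh (by linarith) hb
      (by linarith) (by ring) (by rw [hV] at hsmall; nlinarith [sq_nonneg h0])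
    have i := T2_indep hh0 hh0' hE (g * h * (2 * x + g + h) / 2) hvv hsmall hρ (x + g + h) (7 / 10)
      hb (by linarith) (by norm_num) (by norm_num)
    have hh' := hhy (g * h * (2 * x + g + h) / 2) hvv hsmall
    have e : g * h * (2 * x + g + h) / 2 / V * Φ V
        = 3 * (Φ V / (6 * V)) * g * h * (2 * x + g + h) := by
      field_simp; ring
    rw [e] at hh'
    have a := abs_le.1 s
    have a1 := abs_le.1 i
    have a2 := abs_le.1 hh'
    have hC : 676 * ρ ≤ (676 + 4 / (6 * V)) * ρ := by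
      have : 0 ≤ 4 / (6 * V) * ρ := by positivity
      nlinarith
    refine le_trans ?_ hC
    rw [T2_D] at a
    rw [abs_le]
    constructor <;> linarith [a.1, a.2, a1.1, a1.2, a2.1, a2.2]

end Pool.Agent.Helper1.ZN
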